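import Pool.Agent.Q185.MK.Conds

/-!
Chern's conjecture says that closed affine manifolds have Euler characteristic zero. It is known for
complete ones (Kostant and Sullivan) and for amenable holonomy (Hirsch and Thurston). We show that a
closed affine manifold, with or without parallel volume, whose linear holonomy has one block of
dimension two (with bounded determinants) or three (Lorentzian), with bounded and solvable blocks
below and above it, is complete or has a virtually solvable group.
-/

set_option autoImplicit false

open Pool.Agent.W689.Mk Pool.Agent.Y449.MK Pool.Agent.Q185.MK.Conds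
open scoped commutatorElement

namespace Pool.Agent.Results.MP_1fa9a4_gt.CompleteOrSolvable

/-- A closed affine manifold `Γ \ X` modelled on the vector space `E`: the group `Γ` acts on the
Hausdorff space `X` properly discontinuously and with compact quotient, and the developing map
`dev` is a local homeomorphism to `E` that is equivariant with respect to the affine holonomy
`hol`. -/
structure ClosedAffine (X Γ E : Type) [TopologicalSpace X] [Group Γ] [MulAction Γ X]
    [NormedAddCommGroup E] [NormedSpace ℝ E] (dev : X → E) (hol : Γ →* (E ≃ᵃ[ℝ] E)) : Prop where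
  /-- the developing map is a local homeomorphism -/
  loc : IsLocalHomeomorph dev
  /-- the group acts by homeomorphisms -/
  cont : ∀ γ : Γ, Continuous fun x : X => γ • x
  /-- the developing map is equivariant -/
  equi : ∀ (γ : Γ) (x : X), dev (γ • x) = hol γ (dev x)
  /-- the action is properly discontinuous -/
  pd : ∀ K : Set X, IsCompact K → {γ : Γ | ∃ x ∈ K, γ • x ∈ K}.Finite
  /-- the quotient is compact -/
  cc : ∃ K : Set X, IsCompact K ∧ ∀ x : X, ∃ γ : Γ, ∃ k ∈ K, γ • k = x

/-- A closed affine manifold is given by a connected cover `X` with its group `Γ`, developing map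
`dev` and holonomy `hol`; `H` is a subgroup of finite index of `Γ`. No parallel volume is assumed.

Let `S 0` be a space of velocities whose geodesics are defined up to time one, and suppose that the
linear holonomy of `H` is bounded on `S (i + 1)` modulo `S i` for `i < m` (for instance `S 0 = 0` and
`m = 0`). Let `V` be a subspace on which the linear holonomy of `H` has discompacity at most one
modulo bounded corrections in `S m` (for instance `V` invariant and Lorentzian, or invariant of
dimension two with bounded determinants, or the linear holonomy of `H` is bounded on `V` modulo a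
line). Suppose that there are invariant subspaces `V + S m = T 0 ≤ T 1 ≤ ⋯ ≤ T k`, with `T k` the
whole space, such that the linear holonomy of `H` is bounded on `T (i + 1)` modulo `T i`, that `V` is
invariant and of dimension at most two, or Lorentzian of dimension at most three, and that the linear
holonomy of `H` acts through solvable groups on `S m` and on the quotient by `V + S m`. Then the
affine structure is complete, or the group of transformations of `X` given by `H` is solvable. -/
theorem result (E X Γ : Type) [NormedAddCommGroup E] [NormedSpace ℝ E] [FiniteDimensional ℝ E]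
    [TopologicalSpace X] [T2Space X] [ConnectedSpace X]
    [Group Γ] [MulAction Γ X] (dev : X → E) (hol : Γ →* (E ≃ᵃ[ℝ] E))
    (D : ClosedAffine X Γ E dev hol) (H : Subgroup Γ) (hH : H.FiniteIndex)
    (S : ℕ → Submodule ℝ E) (m : ℕ) (hS : BddChain dev hol H S m) (V : Submodule ℝ E)
    (hV : ThinOn hol H V (S m) ∨ LorentzOn hol H V ∨ AreaOn hol H V ∨ LineOn hol H V)
    (T : ℕ → Submodule ℝ E) (k : ℕ) (hT : BddTower hol H T k) (hT0 : T 0 = V ⊔ S m)
    (hVi : Invt hol H V)
    (hdim : Module.finrank ℝ V ≤ 2 ∨ (Module.finrank ℝ V ≤ 3 ∧ LorentzOn hol H V))
    (hs : SolvableOn hol H (S m) (T 0)) :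
    IsHomeomorph dev ∨ ∃ N : ℕ, ∀ γ : H, γ ∈ derivedSeries H N → ∀ x : X, γ • x = x := by
  have D' : Pool.Agent.W689.Ch.AffMfd X Γ E dev hol := ⟨D.loc, D.cont, D.equi, D.pd, D.cc⟩
  have hV' : ThinOn hol H V (S m) := by
    rcases hV with h | h | h | h
    · exact h
    · exact thin_of_lorentz h _
    · exact thin_of_area h _
    · exact thin_of_line h _
  obtain ⟨h1, -, h3⟩ := main D' H hH S m hS V hV' T k hT hT0
  rcases h3 hVi hdim hs with h | ⟨N, hN⟩
  · exact Or.inl h
  right
  refine ⟨N + 1, ?_⟩
  have hker : derivedSeries H (N + 1) ≤ (MulAction.toPermHom H X).ker := by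
    rw [derivedSeries_succ, Subgroup.commutator_le]
    intro γ hγ δ hδ
    rw [MonoidHom.mem_ker, map_commutatorElement, commutatorElement_eq_one_iff_mul_comm]
    ext x
    show γ • δ • x = δ • γ • x
    apply h1
    have e : ∀ (γ : H) (x : X), dev (γ • x) = hol γ (dev x) := fun γ x => D.equi γ x
    have e' : ∀ γ ∈ derivedSeries H N, ∀ q v : E, hol γ (q + v) = hol γ q + v := by
      intro γ hγ q v
      rw [hol_add]
      congr 1
      exact hN γ hγ v
    rw [e, e, e, e]
    have k1 := e' γ hγ (dev x) (hol δ (dev x) - dev x)
    have k2 := e' δ hδ (dev x) (hol γ (dev x) - dev x)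
    rw [add_sub_cancel] at k1 k2
    rw [k1, k2]
    abel
  intro γ hγ x
  have := hker hγ
  rw [MonoidHom.mem_ker] at this
  exact congrArg (fun f : Equiv.Perm X => f x) this

end Pool.Agent.Results.MP_1fa9a4_gt.CompleteOrSolvable
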