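import Pool.Agent.Q185.MK.Half2
import Pool.Agent.Q185.MK.Ex
import Pool.Agent.Y449.MK.DomDefs
import Pool.Agent.Y150.Ch.Fc
import Pool.Agent.W689.Ch.Main

/-!
Chern's conjecture says that closed affine manifolds have Euler characteristic zero. Closed affine
manifolds, with or without parallel volume, whose linear holonomy has discompacity at most one
relative to complete directions are complete, or they have a continuous vector field without zeros
and are developed homeomorphically onto an open half-space.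
-/

set_option autoImplicit false

open Pool.Agent.W689.Mk Pool.Agent.TH569.MK Pool.Agent.Y449.MK

namespace Pool.Agent.Results.MP_1fa9a4_gt.HalfSpaceDichotomy

/-- A closed affine manifold `Γ \ X` modelled on the vector space `E`: the group `Γ` acts on the
Hausdorff space `X` properly discontinuously and with compact quotient, and the developing map
`dev` is a local homeomorphism to `E` that is equivariant with respect to the affine holonomy
`hol`. -/
structure ClosedAffine (X Γ E : Type) [TopologicalSpace X] [Group Γ] [MulAction Γ X]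
    [NormedAddCommGroup E] [NormedSpace ℝ E] (dev : X → E) (hol : Γ →* (E ≃ᵃ[ℝ] E)) : Prop where
  /-- the developing map is a local homeomorphism -/
  loc : IsLocalHomeomorph dev
  /-- the group acts by homeomorphisms -/
  cont : ∀ γ : Γ, Continuous fun x : X => γ • x
  /-- the developing map is equivariant -/
  equi : ∀ (γ : Γ) (x : X), dev (γ • x) = hol γ (dev x)
  /-- the action is properly discontinuous -/
  pd : ∀ K : Set X, IsCompact K → {γ : Γ | ∃ x ∈ K, γ • x ∈ K}.Finite
  /-- the quotient is compact -/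
  cc : ∃ K : Set X, IsCompact K ∧ ∀ x : X, ∃ γ : Γ, ∃ k ∈ K, γ • k = x

variable {X Γ E : Type} [TopologicalSpace X] [Group Γ] [MulAction Γ X]
  [NormedAddCommGroup E] [NormedSpace ℝ E]

/-- The closed affine manifold `Γ \ X` has a continuous vector field without zeros. -/
def HasField (dev : X → E) (hol : Γ →* (E ≃ᵃ[ℝ] E)) : Prop :=
  ∃ Z : X → E, Continuous Z ∧ (∀ (γ : Γ) (x : X), Z (γ • x) = (hol γ).linear (Z x)) ∧
    ∀ x, Z x ≠ 0

/-- Relative discompacity at most one: there is a constant `C` such that for each linear holonomy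
`A` of an element of `H`, every plane in `V` contains a vector `d ≠ 0` with `|A (d - s)| ≤ C |d|`
for a vector `s` of `S` with `|s| ≤ C |d|`. (The plane is given by two vectors `p`, `q`; when these
are dependent there is nothing to prove.) -/
def ThinOn (hol : Γ →* (E ≃ᵃ[ℝ] E)) (H : Subgroup Γ) (V S : Submodule ℝ E) : Prop :=
  ∃ C : ℝ, ∀ γ ∈ H, ∀ p ∈ V, ∀ q ∈ V, ∃ a b : ℝ, (a ≠ 0 ∨ b ≠ 0) ∧ ∃ s ∈ S,
    ‖s‖ ≤ C * ‖a • p + b • q‖ ∧ ‖(hol γ).linear (a • p + b • q - s)‖ ≤ C * ‖a • p + b • q‖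

/-- The linear holonomy of `H` preserves the subspace `V` and a quadratic form on `V` that is
positive definite on a subspace of `V` of codimension at most one, for instance a Lorentzian
form. -/
def LorentzOn (hol : Γ →* (E ≃ᵃ[ℝ] E)) (H : Subgroup Γ) (V : Submodule ℝ E) : Prop :=
  Invt hol H V ∧ ∃ (B : E →ₗ[ℝ] E →ₗ[ℝ] ℝ) (W : Submodule ℝ E), W ≤ V ∧
    Module.finrank ℝ V ≤ Module.finrank ℝ W + 1 ∧ (∀ w ∈ W, w ≠ 0 → 0 < B w w) ∧
    ∀ γ ∈ H, ∀ v ∈ V, B ((hol γ).linear v) ((hol γ).linear v) = B v v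

/-- The linear holonomy of `H` preserves the subspace `V`, of dimension at most two, with bounded
determinants on `V`. -/
def AreaOn (hol : Γ →* (E ≃ᵃ[ℝ] E)) (H : Subgroup Γ) (V : Submodule ℝ E) : Prop :=
  Invt hol H V ∧ Module.finrank ℝ V ≤ 2 ∧ ∃ c : ℝ, ∀ (γ : Γ)
    (h : ∀ v ∈ V, ((hol γ).linear : E →ₗ[ℝ] E) v ∈ V), γ ∈ H →
    |LinearMap.det (((hol γ).linear : E →ₗ[ℝ] E).restrict h)| ≤ c

/-- There is a vector `e` such that the linear holonomy of `H` is bounded on `V` modulo the multiples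
of `e`. (The determinants may be unbounded.) -/
def LineOn (hol : Γ →* (E ≃ᵃ[ℝ] E)) (H : Subgroup Γ) (V : Submodule ℝ E) : Prop :=
  ∃ (e : E) (C : ℝ), ∀ γ ∈ H, ∀ v ∈ V, ∃ c : ℝ, ‖(hol γ).linear v - c • e‖ ≤ C * ‖v‖

variable [FiniteDimensional ℝ E]

theorem thin_of_lorentz {hol : Γ →* (E ≃ᵃ[ℝ] E)} {H : Subgroup Γ} {V : Submodule ℝ E}
    (h : LorentzOn hol H V) (S : Submodule ℝ E) : ThinOn hol H V S := by
  obtain ⟨hV, B, W, hWV, hrank, hW, hB⟩ := h
  obtain ⟨C, hC, h1⟩ := Pool.Agent.Q185.MK.lorentz_thin B hWV hrank hW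
  refine ⟨C, fun γ hγ p hp q hq => ?_⟩
  obtain ⟨a, b, hab, h2⟩ := h1 ((hol γ).linear : E →ₗ[ℝ] E) (hV γ hγ) (hB γ hγ) p hp q hq
  refine ⟨a, b, hab, 0, S.zero_mem, ?_, ?_⟩
  · rw [norm_zero]
    positivity
  · rw [sub_zero]
    exact h2

theorem thin_of_area {hol : Γ →* (E ≃ᵃ[ℝ] E)} {H : Subgroup Γ} {V : Submodule ℝ E}
    (h : AreaOn hol H V) (S : Submodule ℝ E) : ThinOn hol H V S := by
  obtain ⟨hV, hrank, c, hc⟩ := h
  obtain ⟨C, hC⟩ : ∃ C : ℝ, C = |c| + 2 := ⟨_, rfl⟩
  have hC1 : 1 ≤ C := by rw [hC]; linarith [abs_nonneg c]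
  have hcC : c < C := by rw [hC]; linarith [le_abs_self c]
  refine ⟨C, fun γ hγ p hp q hq => ?_⟩
  by_cases hli : LinearIndependent ℝ ![(⟨p, hp⟩ : V), ⟨q, hq⟩]
  · have hnt : Nontrivial V := ⟨⟨⟨p, hp⟩, 0, by
      have := hli.ne_zero 0
      simpa using this⟩⟩
    have h2 : Module.finrank ℝ V = 2 := by
      refine le_antisymm hrank ?_
      have := hli.fintype_card_le_finrank
      simpa using this
    obtain ⟨d, hd0, hd⟩ := Pool.Agent.Q185.MK.area_dir hC1
      (((hol γ).linear : E →ₗ[ℝ] E).restrict (hV γ hγ)) ((hc γ (hV γ hγ) hγ).trans_lt hcC)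
    have hspan := hli.span_eq_top_of_card_eq_finrank (by rw [h2]; rfl)
    have hdm : d ∈ Submodule.span ℝ (Set.range ![(⟨p, hp⟩ : V), ⟨q, hq⟩]) := by
      rw [hspan]
      exact Submodule.mem_top
    rw [Matrix.range_cons, Matrix.range_cons, Matrix.range_empty, Set.union_empty,
      Set.singleton_union, Submodule.mem_span_pair] at hdm
    obtain ⟨a, b, hab⟩ := hdm
    have hab' : a • p + b • q = (d : E) := congrArg Subtype.val hab
    refine ⟨a, b, ?_, 0, S.zero_mem, ?_, ?_⟩
    · by_contra hcon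
      push Not at hcon
      apply hd0
      rw [← hab, hcon.1, hcon.2, zero_smul, zero_smul, add_zero]
    · rw [norm_zero]
      positivity
    · rw [sub_zero, hab']
      exact hd
  · rw [LinearIndependent.pair_iff] at hli
    push Not at hli
    obtain ⟨a, b, hab, h0⟩ := hli
    have h1 : a • p + b • q = 0 := congrArg Subtype.val hab
    refine ⟨a, b, ?_, 0, S.zero_mem, ?_, ?_⟩
    · by_cases ha : a = 0
      · exact Or.inr (h0 ha)
      · exact Or.inl ha
    · rw [h1, norm_zero, mul_zero]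
    · rw [sub_zero, h1, map_zero, norm_zero, mul_zero]

theorem thin_of_line {hol : Γ →* (E ≃ᵃ[ℝ] E)} {H : Subgroup Γ} {V : Submodule ℝ E}
    (h : LineOn hol H V) (S : Submodule ℝ E) : ThinOn hol H V S := by
  obtain ⟨e, C, hC⟩ := h
  obtain ⟨f, hf⟩ : ∃ f : E →L[ℝ] ℝ, e ≠ 0 → f e = 1 := by
    by_cases he : e = 0
    · exact ⟨0, fun h => absurd he h⟩
    · have hn : ‖e‖ ≠ 0 := norm_ne_zero_iff.2 he
      obtain ⟨g, -, hg⟩ := exists_dual_vector ℝ e hn
      refine ⟨‖e‖⁻¹ • g, fun _ => ?_⟩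
      show ‖e‖⁻¹ • g e = 1
      rw [hg, smul_eq_mul]
      exact inv_mul_cancel₀ hn
  refine ⟨|C| * (1 + ‖f‖ * ‖e‖), fun γ hγ p hp q hq => ?_⟩
  obtain ⟨a, b, hab, h0⟩ : ∃ a b : ℝ, (a ≠ 0 ∨ b ≠ 0) ∧
      f ((hol γ).linear (a • p + b • q)) = 0 := by
    by_cases h1 : f ((hol γ).linear p) = 0
    · exact ⟨1, 0, Or.inl one_ne_zero, by rw [one_smul, zero_smul, add_zero]; exact h1⟩
    · refine ⟨f ((hol γ).linear q), -f ((hol γ).linear p), Or.inr (neg_ne_zero.2 h1), ?_⟩
      rw [map_add, map_smul, map_smul, map_add, map_smul, map_smul, smul_eq_mul, smul_eq_mul]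
      ring
  refine ⟨a, b, hab, 0, S.zero_mem, ?_, ?_⟩
  · rw [norm_zero]
    positivity
  · rw [sub_zero]
    obtain ⟨d, hd⟩ : ∃ d, d = a • p + b • q := ⟨_, rfl⟩
    rw [← hd] at h0 ⊢
    obtain ⟨c, hc⟩ := hC γ hγ d (by rw [hd]; exact V.add_mem (V.smul_mem _ hp) (V.smul_mem _ hq))
    have hc1 : ‖(hol γ).linear d - c • e‖ ≤ |C| * ‖d‖ :=
      hc.trans (mul_le_mul_of_nonneg_right (le_abs_self C) (norm_nonneg d))
    by_cases he : e = 0
    · rw [he, smul_zero, sub_zero] at hc1
      rw [he, norm_zero, mul_zero, add_zero, mul_one]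
      exact hc1
    · have h1 : f ((hol γ).linear d - c • e) = -c := by
        rw [map_sub, map_smul, hf he, h0, smul_eq_mul, mul_one, zero_sub]
      have h2 : |c| ≤ ‖f‖ * (|C| * ‖d‖) := by
        rw [← abs_neg, ← h1, ← Real.norm_eq_abs]
        exact (f.le_opNorm _).trans (mul_le_mul_of_nonneg_left hc1 (norm_nonneg f))
      have h3 : (hol γ).linear d = ((hol γ).linear d - c • e) + c • e := by abel
      calc ‖(hol γ).linear d‖ = ‖((hol γ).linear d - c • e) + c • e‖ := by rw [← h3]
        _ ≤ ‖(hol γ).linear d - c • e‖ + ‖c • e‖ := norm_add_le _ _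
        _ ≤ |C| * ‖d‖ + ‖f‖ * (|C| * ‖d‖) * ‖e‖ := by
            refine add_le_add hc1 ?_
            rw [norm_smul, Real.norm_eq_abs]
            exact mul_le_mul_of_nonneg_right h2 (norm_nonneg e)
        _ = |C| * (1 + ‖f‖ * ‖e‖) * ‖d‖ := by ring

/-- Let `Γ \ X` be a closed affine manifold, with or without parallel volume, with connected cover
`X`, developing map `dev` and holonomy `hol`; let `H` be a subgroup of finite index of `Γ`. Let `S 0`
be a space of velocities whose geodesics are defined up to time one, and suppose that the linear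
holonomy of `H` is bounded on `S (i + 1)` modulo `S i` for `i < m` (for instance unipotent on `S m`
with `S 0 = 0`). Let `V` be a complement of `S m` or more generally a subspace with `V + S m` the
whole space, on which the linear holonomy of `H` has discompacity at most one modulo bounded
corrections in `S m`; for instance `V` is invariant and Lorentzian, or invariant of dimension two
with bounded determinants, or the linear holonomy of `H` is bounded on `V` modulo a line. Then
either the affine structure is complete, or the manifold has a continuous vector field without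
zeros, and its developing map is a homeomorphism onto an open half-space. -/
theorem result (E X Γ : Type) [NormedAddCommGroup E] [NormedSpace ℝ E] [FiniteDimensional ℝ E]
    [TopologicalSpace X] [T2Space X] [ConnectedSpace X]
    [Group Γ] [MulAction Γ X] (dev : X → E) (hol : Γ →* (E ≃ᵃ[ℝ] E))
    (D : ClosedAffine X Γ E dev hol) (H : Subgroup Γ) (hH : H.FiniteIndex)
    (S : ℕ → Submodule ℝ E) (m : ℕ) (hS : BddChain dev hol H S m) (V : Submodule ℝ E)
    (hVS : V ⊔ S m = ⊤)
    (hV : ThinOn hol H V (S m) ∨ LorentzOn hol H V ∨ AreaOn hol H V ∨ LineOn hol H V) :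
    IsHomeomorph dev ∨ (HasField dev hol ∧ Topology.IsOpenEmbedding dev ∧
      ∃ (φ : E →L[ℝ] ℝ) (b : ℝ), φ ≠ 0 ∧ Set.range dev = {q | φ q < b}) := by
  have D' : Pool.Agent.W689.Ch.AffMfd X Γ E dev hol := ⟨D.loc, D.cont, D.equi, D.pd, D.cc⟩
  have DM := Pool.Agent.Y150.Ch.restr D' H hH
  have hT' : ThinOn hol H V (S m) := by
    rcases hV with h | h | h | h
    · exact h
    · exact thin_of_lorentz h _
    · exact thin_of_area h _
    · exact thin_of_line h _
  have hT : Pool.Agent.Q185.MK.Thin (hol.comp H.subtype) V (S m) := by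
    obtain ⟨C, hC⟩ := hT'
    exact ⟨C, fun γ p hp q hq => hC γ γ.2 p hp q hq⟩
  have hcm : ∀ (x : X), ∀ v ∈ S m, Vis dev x v := by
    refine Pool.Agent.Q185.MK.mchain DM S m (fun x v hv => Geod.ex D.loc (hS.1 x v hv))
      fun i hi => ?_
    obtain ⟨C, hC'⟩ := hS.2 i hi
    exact ⟨C, fun γ => hC' γ γ.2⟩
  rcases Pool.Agent.Q185.MK.all_or_half DM hVS hcm hT with h | ⟨hinj, φ, b, hφ, hr⟩
  · exact Or.inl h
  by_cases hf : HasField dev hol
  · exact Or.inr ⟨hf, D.loc.isOpenEmbedding_of_injective hinj, φ, b, hφ, hr⟩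
  · exfalso
    obtain ⟨x0⟩ := (inferInstance : Nonempty X)
    have hconv : Convex ℝ (Set.range dev) := by
      rw [hr]
      exact convex_halfSpace_lt φ.toLinearMap.isLinear b
    have hne : Set.range dev ≠ Set.univ := by
      intro hu
      obtain ⟨v, hv⟩ : ∃ v, φ v ≠ 0 := by
        by_contra hcon
        push Not at hcon
        exact hφ (ContinuousLinearMap.ext hcon)
      have h1 : (b / φ v) • v ∈ Set.range dev := by rw [hu]; trivial
      rw [hr] at h1
      have h2 : φ ((b / φ v) • v) < b := h1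
      rw [map_smul, smul_eq_mul, div_mul_cancel₀ _ hv] at h2
      exact lt_irrefl _ h2
    exact (Pool.Agent.W689.Ch.main D' (S := Set.range dev) (p := dev x0) ⟨x0, rfl⟩
      (hconv.starConvex ⟨x0, rfl⟩) hne
      (by rintro γ _ ⟨x, rfl⟩; exact ⟨γ • x, D.equi γ x⟩) hf).1 Set.Subset.rfl

end Pool.Agent.Results.MP_1fa9a4_gt.HalfSpaceDichotomy
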