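import Pool.Agent.Q185.MK.Conds

/-!
Chern's conjecture says that closed affine manifolds have Euler characteristic zero. We show that a
closed affine manifold, with or without parallel volume, whose linear holonomy has one block of
discompacity at most one and otherwise bounded blocks, below and above it, is the quotient of an open
set of the model space: the developing map is injective. The slices of this open set along the block
are half-spaces, slabs or everything.
-/

set_option autoImplicit false

open Pool.Agent.W689.Mk Pool.Agent.Y449.MK Pool.Agent.Q185.MK.Conds

namespace Pool.Agent.Results.MP_1fa9a4_gt.InjectiveDeveloping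

/-- A closed affine manifold `Γ \ X` modelled on the vector space `E`: the group `Γ` acts on the
Hausdorff space `X` properly discontinuously and with compact quotient, and the developing map
`dev` is a local homeomorphism to `E` that is equivariant with respect to the affine holonomy
`hol`. -/
structure ClosedAffine (X Γ E : Type) [TopologicalSpace X] [Group Γ] [MulAction Γ X]
    [NormedAddCommGroup E] [NormedSpace ℝ E] (dev : X → E) (hol : Γ →* (E ≃ᵃ[ℝ] E)) : Prop where
  /-- the developing map is a local homeomorphism -/
  loc : IsLocalHomeomorph dev
  /-- the group acts by homeomorphisms -/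
  cont : ∀ γ : Γ, Continuous fun x : X => γ • x
  /-- the developing map is equivariant -/
  equi : ∀ (γ : Γ) (x : X), dev (γ • x) = hol γ (dev x)
  /-- the action is properly discontinuous -/
  pd : ∀ K : Set X, IsCompact K → {γ : Γ | ∃ x ∈ K, γ • x ∈ K}.Finite
  /-- the quotient is compact -/
  cc : ∃ K : Set X, IsCompact K ∧ ∀ x : X, ∃ γ : Γ, ∃ k ∈ K, γ • k = x

/-- A closed affine manifold is given by a connected cover `X` with its group `Γ`, developing map
`dev` and holonomy `hol`; `H` is a subgroup of finite index of `Γ`. No parallel volume is assumed.

Let `S 0` be a space of velocities whose geodesics are defined up to time one, and suppose that the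
linear holonomy of `H` is bounded on `S (i + 1)` modulo `S i` for `i < m` (for instance `S 0 = 0` and
`m = 0`). Let `V` be a subspace on which the linear holonomy of `H` has discompacity at most one
modulo bounded corrections in `S m` (for instance `V` invariant and Lorentzian, or invariant of
dimension two with bounded determinants, or the linear holonomy of `H` is bounded on `V` modulo a
line). Suppose that there are invariant subspaces `V + S m = T 0 ≤ T 1 ≤ ⋯ ≤ T k`, with `T k` the
whole space, such that the linear holonomy of `H` is bounded on `T (i + 1)` modulo `T i`. Then the
developing map is injective, and at every point the velocities in `V + S m` whose geodesic is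
defined up to time one form the whole subspace, a half-space or a slab of it. -/
theorem result (E X Γ : Type) [NormedAddCommGroup E] [NormedSpace ℝ E] [FiniteDimensional ℝ E]
    [TopologicalSpace X] [T2Space X] [ConnectedSpace X]
    [Group Γ] [MulAction Γ X] (dev : X → E) (hol : Γ →* (E ≃ᵃ[ℝ] E))
    (D : ClosedAffine X Γ E dev hol) (H : Subgroup Γ) (hH : H.FiniteIndex)
    (S : ℕ → Submodule ℝ E) (m : ℕ) (hS : BddChain dev hol H S m) (V : Submodule ℝ E)
    (hV : ThinOn hol H V (S m) ∨ LorentzOn hol H V ∨ AreaOn hol H V ∨ LineOn hol H V)
    (T : ℕ → Submodule ℝ E) (k : ℕ) (hT : BddTower hol H T k) (hT0 : T 0 = V ⊔ S m) :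
    Function.Injective dev ∧ ∀ x : X, SliceFlat dev (T 0) x := by
  have D' : Pool.Agent.W689.Ch.AffMfd X Γ E dev hol := ⟨D.loc, D.cont, D.equi, D.pd, D.cc⟩
  have hV' : ThinOn hol H V (S m) := by
    rcases hV with h | h | h | h
    · exact h
    · exact thin_of_lorentz h _
    · exact thin_of_area h _
    · exact thin_of_line h _
  obtain ⟨h1, h2, -⟩ := main D' H hH S m hS V hV' T k hT hT0
  exact ⟨h1, h2⟩

end Pool.Agent.Results.MP_1fa9a4_gt.InjectiveDeveloping
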